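import Pool.Agent.H75.L.W662.CB.Stmts

set_option autoImplicit false

open MeasureTheory Filter Topology Complex
open scoped InnerProductSpace ENNReal

namespace Pool.Agent.W821.CB

open Pool.Agent.W662.CB

noncomputable section

/-- the exponentials on the box -/
def chi (W : ℝ) (z : ℂ) (w : ℝ) : ℂ :=
  Set.indicator (Set.Icc 0 W) (fun w : ℝ => Complex.exp (2 * Real.pi * I * z * w)) w

lemma chi_mul (W : ℝ) (z z' : ℂ) (w : ℝ) : chi W z w * chi W z' w = chi W (z + z') w := by
  unfold chi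
  by_cases hw : w ∈ Set.Icc 0 W
  · rw [Set.indicator_of_mem hw, Set.indicator_of_mem hw, Set.indicator_of_mem hw,
      ← Complex.exp_add]
    congr 1
    ring
  · rw [Set.indicator_of_notMem hw, Set.indicator_of_notMem hw, Set.indicator_of_notMem hw]
    simp

lemma chi_conj (W : ℝ) (r : ℝ) (w : ℝ) :
    starRingEnd ℂ (chi W (r : ℂ) w) = chi W ((-r : ℝ) : ℂ) w := by
  unfold chi
  by_cases hw : w ∈ Set.Icc 0 W
  · rw [Set.indicator_of_mem hw, Set.indicator_of_mem hw, ← Complex.exp_conj]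
    congr 1
    simp only [map_mul, Complex.conj_ofReal, Complex.conj_I, map_ofNat, Complex.ofReal_neg]
    ring
  · rw [Set.indicator_of_notMem hw, Set.indicator_of_notMem hw]
    simp

section vec

variable {H : Type} [NormedAddCommGroup H] [InnerProductSpace ℂ H] [CompleteSpace H]

lemma mul_comp {g h k : ℝ → ℂ} {S T R : LR H →L[ℂ] LR H} (hS : IsMulOp g S) (hT : IsMulOp h T)
    (hR : IsMulOp k R) (hk : ∀ w, g w * h w = k w) (f : LR H) : S (T f) = R f := by
  apply Lp.ext
  filter_upwards [hS (T f), hT f, hR f] with w h1 h2 h3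
  rw [h1, h2, h3, smul_smul, hk]

lemma mul_adj {g h : ℝ → ℂ} {S T : LR H →L[ℂ] LR H} (hS : IsMulOp g S) (hT : IsMulOp h T)
    (hk : ∀ w, starRingEnd ℂ (g w) = h w) (f k : LR H) : ⟪S f, k⟫_ℂ = ⟪f, T k⟫_ℂ := by
  rw [L2.inner_def, L2.inner_def]
  apply integral_congr_ae
  filter_upwards [hS f, hT k] with w h1 h2
  rw [h1, h2, inner_smul_left, inner_smul_right, hk]

end vec

lemma scalar_zero {W : ℝ} (hW : 0 < W) (g : ℝ → ℂ)
    (hg : MemLp g 2 (volume.restrict (Set.Ioc 0 W)))
    (h : ∀ m : ℤ, ∫ w in Set.Ioc 0 W,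
      Complex.exp (2 * Real.pi * I * ((-((m : ℝ) * (1 / W)) : ℝ) : ℂ) * w) * g w = 0) :
    g =ᵐ[volume.restrict (Set.Ioc 0 W)] 0 := by
  have h1 := tsum_sq_fourierCoeffOn hW hg
  have h2 : ∀ m : ℤ, fourierCoeffOn hW g m = 0 := by
    intro m
    rw [fourierCoeffOn_eq_integral, intervalIntegral.integral_of_le hW.le]
    have : ∫ x in Set.Ioc 0 W, fourier (-m) (x : AddCircle (W - 0)) • g x = 0 := by
      rw [← h m]
      apply integral_congr_ae
      refine Eventually.of_forall fun w => ?_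
      simp only
      rw [fourier_coe_apply, smul_eq_mul]
      congr 2
      push_cast
      rw [sub_zero]
      field_simp
    rw [this, smul_zero]
  have h3 : ∫ x in (0 : ℝ)..W, ‖g x‖ ^ 2 = 0 := by
    have h4 : ∑' (i : ℤ), ‖fourierCoeffOn hW g i‖ ^ 2 = 0 := by
      simp [h2]
    rw [h4] at h1
    rw [sub_zero, smul_eq_mul] at h1
    have h5 : W⁻¹ ≠ 0 := inv_ne_zero hW.ne'
    have h6 := mul_eq_zero.mp h1.symm
    exact h6.resolve_left h5
  rw [intervalIntegral.integral_of_le hW.le] at h3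
  have h7 : Integrable (fun x => ‖g x‖ ^ 2) (volume.restrict (Set.Ioc 0 W)) := by
    have := hg.integrable_norm_pow (by norm_num)
    simpa using this
  have h8 := (integral_eq_zero_iff_of_nonneg (fun x => by positivity) h7).mp h3
  filter_upwards [h8] with w hw
  simpa using hw

section vec

variable {H : Type} [NormedAddCommGroup H] [InnerProductSpace ℂ H] [CompleteSpace H]

lemma vec_zero {W : ℝ} (hW : 0 < W) (g : ℝ → H)
    (hg : MemLp g 2 (volume.restrict (Set.Ioc 0 W)))
    (h : ∀ m : ℤ, ∫ w in Set.Ioc 0 W,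
      Complex.exp (2 * Real.pi * I * ((-((m : ℝ) * (1 / W)) : ℝ) : ℂ) * w) • g w = 0) :
    g =ᵐ[volume.restrict (Set.Ioc 0 W)] 0 := by
  have : IsFiniteMeasure (volume.restrict (Set.Ioc 0 W)) := by
    constructor
    rw [Measure.restrict_apply_univ, Real.volume_Ioc]
    exact ENNReal.ofReal_lt_top
  obtain ⟨t, ht, h't⟩ := hg.aestronglyMeasurable.isSeparable_ae_range
  refine ae_eq_zero_of_forall_dual_of_isSeparable ℂ ht (fun c => ?_) h't
  have hgi : Integrable g (volume.restrict (Set.Ioc 0 W)) := hg.integrable (by norm_num)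
  have hc : MemLp (fun x => c (g x)) 2 (volume.restrict (Set.Ioc 0 W)) :=
    c.comp_memLp' hg
  refine scalar_zero hW (fun x => c (g x)) hc (fun m => ?_)
  have hint : Integrable (fun w : ℝ => Complex.exp (2 * Real.pi * I *
      ((-((m : ℝ) * (1 / W)) : ℝ) : ℂ) * w) • g w) (volume.restrict (Set.Ioc 0 W)) := by
    refine hgi.bdd_smul (C := 1) ?_ ?_
    · apply Continuous.aestronglyMeasurable
      fun_prop
    · refine Eventually.of_forall fun w => ?_
      rw [Complex.norm_exp]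
      simp
  have h1 := c.integral_comp_comm hint
  rw [h m, map_zero] at h1
  rw [← h1]
  apply integral_congr_ae
  refine Eventually.of_forall fun w => ?_
  simp

end vec

theorem e6 : S_E6 := by
  intro H _ _ _ W hW E J hE hJ hJJ hJadj
  have hE' : ∀ z, IsMulOp (chi W z) (E z) := hE
  have hcomp : ∀ (z z' : ℂ) (f : LR H), E z (E z' f) = E (z + z') f := fun z z' f =>
    mul_comp (hE' z) (hE' z') (hE' (z + z')) (fun w => chi_mul W z z' w) f
  have hadj : ∀ (r : ℝ) (f k : LR H), ⟪E (r : ℂ) f, k⟫_ℂ = ⟪f, E ((-r : ℝ) : ℂ) k⟫_ℂ :=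
    fun r f k => mul_adj (hE' _) (hE' _) (fun w => chi_conj W r w) f k
  have hE0J : ∀ v, E 0 (J v) = J v := by
    intro v
    apply Lp.ext
    filter_upwards [hE' 0 (J v), hJ v] with w h1 h2
    rw [h1, h2]
    unfold chi
    by_cases hw : w ∈ Set.Icc 0 W
    · simp [Set.indicator_of_mem hw]
    · simp [Set.indicator_of_notMem hw]
  have horth : ∀ (m : ℤ) (v : H), m ≠ 0 →
      ContinuousLinearMap.adjoint J (E (((m : ℝ) * (1 / W) : ℝ) : ℂ) (J v)) = 0 := by
    intro m v hm
    rw [hJadj]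
    have hz : ∫ w in Set.Icc 0 W, (E (((m : ℝ) * (1 / W) : ℝ) : ℂ) (J v) : ℝ → H) w = 0 := by
      have h1 : ∫ w in Set.Icc 0 W, (E (((m : ℝ) * (1 / W) : ℝ) : ℂ) (J v) : ℝ → H) w =
          ∫ w : ℝ in Set.Icc 0 W,
            (Complex.exp (2 * Real.pi * I * (((m : ℝ) * (1 / W) : ℝ) : ℂ) * w)) •
              ((((Real.sqrt W)⁻¹ : ℝ) : ℂ) • v) := by
        apply setIntegral_congr_ae measurableSet_Icc
        filter_upwards [hE' _ (J v), hJ v] with w h1 h2 hw
        rw [h1, h2, chi, Set.indicator_of_mem hw, Set.indicator_of_mem hw]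
      rw [h1, integral_smul_const]
      have h2 : ∫ w : ℝ in Set.Icc 0 W,
          Complex.exp (2 * Real.pi * I * (((m : ℝ) * (1 / W) : ℝ) : ℂ) * w) = 0 := by
        rw [integral_Icc_eq_integral_Ioc, ← intervalIntegral.integral_of_le hW.le]
        have hWc : (W : ℂ) ≠ 0 := by exact_mod_cast hW.ne'
        have hmc : (m : ℂ) ≠ 0 := by exact_mod_cast hm
        have hc : (2 * Real.pi * I * (((m : ℝ) * (1 / W) : ℝ) : ℂ)) ≠ 0 := by
          push_cast
          have := Complex.two_pi_I_ne_zero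
          refine mul_ne_zero this (mul_ne_zero hmc ?_)
          simp [hWc]
        rw [integral_exp_mul_complex hc]
        have h3 : 2 * Real.pi * I * (((m : ℝ) * (1 / W) : ℝ) : ℂ) * (W : ℂ) =
            m * (2 * Real.pi * I) := by
          push_cast
          field_simp
        rw [h3, Complex.exp_int_mul_two_pi_mul_I]
        simp
      rw [h2, zero_smul]
    rw [hz, smul_zero]
  refine ⟨horth, ?_⟩
  -- the isometries
  have hinner : ∀ (m n : ℤ) (v u : H), ⟪E (((m : ℝ) * (1 / W) : ℝ) : ℂ) (J v),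
      E (((n : ℝ) * (1 / W) : ℝ) : ℂ) (J u)⟫_ℂ = if m = n then ⟪v, u⟫_ℂ else 0 := by
    intro m n v u
    rw [hadj, hcomp, ← ContinuousLinearMap.adjoint_inner_right]
    have h1 : ((-((m : ℝ) * (1 / W)) : ℝ) : ℂ) + (((n : ℝ) * (1 / W) : ℝ) : ℂ) =
        ((((n - m : ℤ) : ℝ) * (1 / W) : ℝ) : ℂ) := by
      push_cast
      ring
    rw [h1]
    by_cases hmn : m = n
    · subst hmn
      rw [if_pos rfl]
      have h2 : ((((m - m : ℤ) : ℝ) * (1 / W) : ℝ) : ℂ) = 0 := by simp
      rw [h2, hE0J, hJJ]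
    · rw [if_neg hmn, horth (n - m) u (sub_ne_zero.mpr (Ne.symm hmn)), inner_zero_right]
  let V : ℤ → H →ₗᵢ[ℂ] LR H := fun m =>
    LinearMap.isometryOfInner
      ((E (((m : ℝ) * (1 / W) : ℝ) : ℂ)).comp J : H →L[ℂ] LR H).toLinearMap
      (fun v u => by
        have := hinner m m v u
        rw [if_pos rfl] at this
        exact this)
  have hVap : ∀ m v, V m v = E (((m : ℝ) * (1 / W) : ℝ) : ℂ) (J v) := fun m v => rfl
  have hV : OrthogonalFamily ℂ (fun _ : ℤ => H) V := by
    intro m n hmn v u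
    rw [hVap, hVap, hinner, if_neg hmn]
  intro u
  -- adjoint of V m
  have hadjV : ∀ (m : ℤ) (f : LR H) (v : H), ⟪V m v, f⟫_ℂ =
      ⟪v, ContinuousLinearMap.adjoint J (E ((-((m : ℝ) * (1 / W)) : ℝ) : ℂ) f)⟫_ℂ := by
    intro m f v
    rw [hVap, hadj, ContinuousLinearMap.adjoint_inner_right]
  have hmem : E 0 u ∈ (⨆ i, LinearMap.range (V i).toLinearMap).topologicalClosure := by
    rw [← Submodule.orthogonal_orthogonal_eq_closure, Submodule.mem_orthogonal]
    intro z hz
    rw [Submodule.mem_orthogonal] at hz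
    have h1 : ∀ m : ℤ, ContinuousLinearMap.adjoint J
        (E ((-((m : ℝ) * (1 / W)) : ℝ) : ℂ) z) = 0 := by
      intro m
      rw [← inner_self_eq_zero (𝕜 := ℂ), ← hadjV]
      apply hz
      exact Submodule.mem_iSup_of_mem m (LinearMap.mem_range_self _ _)
    have h2 : ∀ m : ℤ, ∫ w : ℝ in Set.Ioc 0 W,
        Complex.exp (2 * Real.pi * I * ((-((m : ℝ) * (1 / W)) : ℝ) : ℂ) * w) • z w = 0 := by
      intro m
      have h3 := h1 m
      rw [hJadj] at h3
      have h4 : (((Real.sqrt W)⁻¹ : ℝ) : ℂ) ≠ 0 := by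
        have : Real.sqrt W ≠ 0 := (Real.sqrt_pos.mpr hW).ne'
        exact_mod_cast inv_ne_zero this
      have h5 := (smul_eq_zero.mp h3).resolve_left h4
      rw [← h5, ← integral_Icc_eq_integral_Ioc]
      apply setIntegral_congr_ae measurableSet_Icc
      filter_upwards [hE' ((-((m : ℝ) * (1 / W)) : ℝ) : ℂ) z] with w h6 hw
      rw [h6, chi, Set.indicator_of_mem hw]
    have h3 : (z : ℝ → H) =ᵐ[volume.restrict (Set.Ioc 0 W)] 0 :=
      vec_zero hW _ ((Lp.memLp z).restrict _) h2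
    have h4 : E 0 z = 0 := by
      apply Lp.ext
      have h5 : (z : ℝ → H) =ᵐ[volume.restrict (Set.Icc 0 W)] 0 := by
        rw [← restrict_Ioc_eq_restrict_Icc]
        exact h3
      have h6 := (ae_restrict_iff' measurableSet_Icc).mp h5
      filter_upwards [hE' 0 z, h6, Lp.coeFn_zero H 2 (volume : Measure ℝ)] with w h7 h8 h9
      rw [h7, h9]
      by_cases hw : w ∈ Set.Icc 0 W
      · rw [h8 hw]
        simp
      · rw [chi, Set.indicator_of_notMem hw]
        simp
    have h5 := hadj 0 z u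
    simp only [neg_zero, Complex.ofReal_zero] at h5
    rw [← h5, h4, inner_zero_left]
  rw [← hV.range_linearIsometry] at hmem
  obtain ⟨f, hf⟩ := hmem
  have hf' : hV.linearIsometry f = E 0 u := hf
  have hsum := hV.hasSum_linearIsometry f
  rw [hf'] at hsum
  have hfm : ∀ m : ℤ, ContinuousLinearMap.adjoint J
      (E ((-((m : ℝ) * (1 / W)) : ℝ) : ℂ) u) = f m := by
    intro m
    have h1 : E ((-((m : ℝ) * (1 / W)) : ℝ) : ℂ) u =
        E ((-((m : ℝ) * (1 / W)) : ℝ) : ℂ) (E 0 u) := by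
      rw [hcomp, add_zero]
    rw [h1]
    have h2 := hsum.mapL ((ContinuousLinearMap.adjoint J).comp
      (E ((-((m : ℝ) * (1 / W)) : ℝ) : ℂ)))
    have h3 : ∀ n : ℤ, ((ContinuousLinearMap.adjoint J).comp
        (E ((-((m : ℝ) * (1 / W)) : ℝ) : ℂ))) (V n (f n)) = if n = m then f m else 0 := by
      intro n
      apply ext_inner_left ℂ
      intro v
      rw [ContinuousLinearMap.comp_apply, ← hadjV, hVap, hVap, hinner]
      by_cases hmn : n = m
      · subst hmn
        simp
      · rw [if_neg (Ne.symm hmn), if_neg hmn, inner_zero_right]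
    simp only [h3] at h2
    have h4 := hasSum_ite_eq m (f m)
    exact h2.unique h4
  have h5 : (fun m : ℤ => E (((m : ℝ) * (1 / W) : ℝ) : ℂ)
      (J (ContinuousLinearMap.adjoint J (E ((-((m : ℝ) * (1 / W)) : ℝ) : ℂ) u)))) =
      fun m => V m (f m) := by
    funext m
    rw [hfm, hVap]
  rw [h5]
  exact hsum

end

end Pool.Agent.W821.CB
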